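import Pool.Agent.W593.IR.Stm3

/-!
# IR3-FLR: floor form of the chain
-/

set_option autoImplicit false

namespace Pool.Agent.W890.IR

open Finset Pool.Agent.W890.SF Pool.Agent.W593.IR

theorem flr (h1 : S_BAS) (h2 : S_ADD) (h3 : S_KEY) : S_FLR := by
  intro ι _ b q c x w S
  obtain ⟨n, hn⟩ : ∃ n, n = S.card := ⟨_, rfl⟩
  induction n generalizing S with
  | zero =>
    intro N hc hb hx hx0 hxw hw hρ
    have hS : S = ∅ := card_eq_zero.1 hn.symm
    subst hS
    obtain ⟨e1, e2, e3, e4, _⟩ := h1 ι b q c ∅ hc hb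
    rw [sum_empty, sub_zero] at e4 hρ ⊢
    have hU : PU b q c ∅ = 1 := by
      have : c * 1 ≤ c * PU b q c ∅ := by linarith
      exact le_antisymm e2 (le_of_mul_le_mul_left this hc)
    have hG : PG b q c ∅ = c := by
      rw [hU, mul_one] at e3
      exact le_antisymm e3 e4
    rw [hU, hG, mul_one] at hw
    have hNx : (N : ℝ) * x ≤ 0 := by linarith
    have hN : (N : ℝ) = 0 := by
      have h0 : (0 : ℝ) ≤ N := Nat.cast_nonneg N
      by_contra hne
      have : 0 < (N : ℝ) := lt_of_le_of_ne h0 (Ne.symm hne)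
      have := mul_pos this hx0
      linarith
    have hN' : N = 0 := by exact_mod_cast hN
    subst hN'
    rw [hG]
    simp
  | succ n ih =>
    intro N hc hb hx hx0 hxw hw hρ
    have hw0 : 0 < w := lt_of_lt_of_le hx0 hxw
    obtain ⟨a1, a2, a3, a4, a5⟩ := h1 ι b q c S hc hb
    rcases Nat.eq_zero_or_pos N with hN0 | hNpos
    · subst hN0
      simpa using a4
    have hne : S.Nonempty := card_pos.1 (by omega)
    obtain ⟨x0, hx0S, hkey⟩ := h3 ι b q c S hc hb hne
    have hb' : ∀ i ∈ S.erase x0, 0 < b i ∧ 0 ≤ q i ∧ q i < 1 := fun i hi => hb i (mem_of_mem_erase hi)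
    have hx' : ∀ i ∈ S.erase x0, b i * q i ≤ x := fun i hi => hx i (mem_of_mem_erase hi)
    obtain ⟨e1, e2, e3, e4, e5⟩ := h1 ι b q c (S.erase x0) hc hb'
    have hadd := h2 ι b q c S x0 hc hb hx0S
    have hsum := Finset.add_sum_erase S (fun i => b i * q i) hx0S
    have hmu0 : 0 ≤ b x0 * q x0 := mul_nonneg (hb x0 hx0S).1.le (hb x0 hx0S).2.1
    have hmux : b x0 * q x0 ≤ x := hx x0 hx0S
    obtain ⟨mu, hmu⟩ : ∃ mu, mu = b x0 * q x0 := ⟨_, rfl⟩
    obtain ⟨Tt, hTt⟩ : ∃ s, s = ∑ i ∈ S.erase x0, b i * q i := ⟨_, rfl⟩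
    have hSg : ∑ i ∈ S, b i * q i = mu + Tt := by rw [← hsum, hmu, hTt]
    rw [← hmu] at hadd hmu0 hmux
    rw [hSg] at hρ ⊢
    have hwU : w * PU b q c (S.erase x0) ≤ PG b q c (S.erase x0) := by
      have g1 : w * PU b q c S * PU b q c (S.erase x0) ≤
          PG b q c S * PU b q c (S.erase x0) := mul_le_mul_of_nonneg_right hw e1.le
      have g2 : (w * PU b q c (S.erase x0)) * PU b q c S ≤
          PG b q c (S.erase x0) * PU b q c S := by linarith
      exact le_of_mul_le_mul_right g2 a1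
    have g1 : PG b q c (S.erase x0) * (1 - mu / w) ≤ PG b q c S := by
      have g2 : PU b q c (S.erase x0) ≤ PG b q c (S.erase x0) / w := by
        rw [le_div_iff₀ hw0]
        linarith
      have g3 := mul_le_mul_of_nonneg_left g2 hmu0
      have g4 : PG b q c (S.erase x0) * (1 - mu / w) =
        PG b q c (S.erase x0) - mu * (PG b q c (S.erase x0) / w) := by ring
      rw [g4]
      linarith
    have hz : 0 ≤ 1 - x / w := by
      have : x / w ≤ 1 := (div_le_one hw0).2 hxw
      linarith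
    have hm : 0 ≤ 1 - mu / w := by
      have : mu / w ≤ 1 := (div_le_one hw0).2 (hmux.trans hxw)
      linarith
    obtain ⟨t, ht⟩ : ∃ t, t = c - (mu + Tt) + N * x := ⟨_, rfl⟩
    rw [← ht] at hρ ⊢
    rcases le_or_gt (t + mu) w with hcase | hcase
    · have hIH := ih (S.erase x0) (by rw [card_erase_of_mem hx0S]; omega) N hc hb' hx' hx0 hxw hwU
        (by rw [← hTt]; linarith)
      have e : c - ∑ i ∈ S.erase x0, b i * q i + N * x = t + mu := by rw [← hTt, ht]; ring
      rw [e] at hIH
      have k1 := mul_le_mul_of_nonneg_right hIH hm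
      have k2 : t ≤ (t + mu) * (1 - mu / w) := by
        have : (t + mu) * (1 - mu / w) - t = mu * (1 - (t + mu) / w) := by
          field_simp
          ring
        have h3 : (t + mu) / w ≤ 1 := (div_le_one hw0).2 hcase
        have h4 : 0 ≤ mu * (1 - (t + mu) / w) := mul_nonneg hmu0 (by linarith)
        linarith
      have k3 := mul_le_mul_of_nonneg_right k2 (pow_nonneg hz N)
      calc t * (1 - x / w) ^ N ≤ (t + mu) * (1 - mu / w) * (1 - x / w) ^ N := k3
        _ = (t + mu) * (1 - x / w) ^ N * (1 - mu / w) := by ring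
        _ ≤ _ := k1.trans g1
    · obtain ⟨M, rfl⟩ : ∃ M, N = M + 1 := ⟨N - 1, by omega⟩
      push_cast at ht
      have hIH := ih (S.erase x0) (by rw [card_erase_of_mem hx0S]; omega) M hc hb' hx' hx0 hxw hwU
        (by rw [← hTt]; linarith)
      have e : c - ∑ i ∈ S.erase x0, b i * q i + M * x = t + mu - x := by rw [← hTt, ht]; ring
      rw [e] at hIH
      have k1 := mul_le_mul_of_nonneg_right hIH hm
      have k2 : t * (1 - x / w) ≤ (t + mu - x) * (1 - mu / w) := by
        have : (t + mu - x) * (1 - mu / w) - t * (1 - x / w) = (x - mu) * ((t + mu) / w - 1) := by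
          field_simp
          ring
        have h3 : 1 ≤ (t + mu) / w := (one_le_div hw0).2 hcase.le
        have h4 : 0 ≤ (x - mu) * ((t + mu) / w - 1) := mul_nonneg (by linarith) (by linarith)
        linarith
      have k3 := mul_le_mul_of_nonneg_right k2 (pow_nonneg hz M)
      calc t * (1 - x / w) ^ (M + 1) = t * (1 - x / w) * (1 - x / w) ^ M := by ring
        _ ≤ (t + mu - x) * (1 - mu / w) * (1 - x / w) ^ M := k3
        _ = (t + mu - x) * (1 - x / w) ^ M * (1 - mu / w) := by ring
        _ ≤ _ := k1.trans g1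

end Pool.Agent.W890.IR
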